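import Mathlib
import Pool.Agent.H8.Rec

set_option autoImplicit false

namespace Pool.Agent.Results.MP_eb0437_lc.CH

open Set Filter Topology MeasureTheory Pool.Agent.H8.SG unitInterval
open scoped Cardinal ENNReal

lemma gd (L : Set I) : ∃ H, IsGδ H ∧ L ⊆ H ∧ volume H ≤ volume L := by
  choose U h1 h2 h3 using fun n : ℕ => L.exists_isOpen_lt_add (μ := volume) (measure_ne_top _ _)
    (ε := (n : ℝ≥0∞)⁻¹) (by simp)
  refine ⟨_, .iInter_of_isOpen h2, subset_iInter h1, ENNReal.le_of_forall_pos_le_add fun ε h _ => ?_⟩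
  obtain ⟨n, hn⟩ := ENNReal.exists_inv_nat_lt (a := ε) (by simpa using h.ne')
  exact (measure_mono (iInter_subset U n)).trans ((h3 n).le.trans (add_le_add_right hn.le _))

theorem result (h : Cardinal.continuum.{0} = Cardinal.aleph 1) : ∃ φ : Set I → Set I,
    (∀ D, MeasurableSet D → IsGδ (φ D) ∧ D ⊆ φ D ∧ volume (φ D) = volume D) ∧
    ∀ D D', MeasurableSet D → MeasurableSet D' → D ⊆ D' → φ D ⊆ φ D' := by
  refine (rec_CH h (J := {D : Set I // MeasurableSet D}) (A := Set I × Set I) ?_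
    (fun S => (∀ p ∈ S, IsGδ p.2 ∧ p.1 ⊆ p.2 ∧ volume (p.2 \ p.1) = 0) ∧
      ∀ p ∈ S, ∀ q ∈ S, p.1 ⊆ q.1 → p.2 ⊆ q.2) (fun D S => ∃ H, (D.1, H) ∈ S)
    countable_empty (by simp) ?_ ?_).elim fun S ⟨_, hG, hT⟩ => ?_
  · obtain ⟨b, hb, -, h2⟩ := TopologicalSpace.exists_countable_basis I
    have h3 := MeasurableSpace.cardinal_measurableSet_le_continuum (s := b)
      (hb.le_aleph0.trans Cardinal.aleph0_le_continuum)
    rwa [← h2.borel_eq_generateFrom, ← BorelSpace.measurable_eq] at h3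
  · refine fun c _ h1 h2 => ⟨fun p ⟨s, h3, h4⟩ => (h2 s h3).1 p h4, ?_⟩
    rintro p ⟨s, h3, h4⟩ q ⟨t, h5, h6⟩
    rcases h1.total h3 h5 with h | h
    exacts [(h2 t h5).2 p (h h4) q h6, (h2 s h3).2 p h4 q (h h6)]
  · rintro S - hc hG ⟨D, hD⟩
    obtain ⟨H, h1, h2, h3⟩ := gd (D ∪ ⋃ p ∈ {p ∈ S | p.1 ⊆ D}, (p.2 \ p.1))
    have h4 : volume (H \ D) = 0 := by
      rw [measure_diff (subset_union_left.trans h2) hD.nullMeasurableSet (measure_ne_top _ _),
        tsub_eq_zero_iff_le]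
      refine h3.trans ((measure_union_le _ _).trans_eq ?_)
      rw [(measure_biUnion_null_iff (hc.mono (sep_subset _ _))).2 fun p hp => (hG.1 p hp.1).2.2,
        add_zero]
    refine ⟨insert (D, H ∩ ⋂ p ∈ {p ∈ S | D ⊆ p.1}, p.2) S, subset_insert _ _, hc.insert _, ⟨?_, ?_⟩,
      _, mem_insert _ _⟩
    · rintro p (rfl | hp)
      · exact ⟨h1.inter (.biInter (hc.mono (sep_subset _ _)) fun p hp => (hG.1 p hp.1).1),
          subset_inter (subset_union_left.trans h2) (subset_iInter₂ fun p hp =>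
            hp.2.trans (hG.1 p hp.1).2.1), measure_mono_null (diff_subset_diff_left inter_subset_left) h4⟩
      · exact hG.1 p hp
    · rintro p (rfl | hp) q (rfl | hq) h5
      · exact Subset.rfl
      · exact inter_subset_right.trans (biInter_subset_of_mem (show q ∈ {p ∈ S | D ⊆ p.1} from ⟨hq, h5⟩))
      · refine subset_inter (fun x hx => h2 ?_) (subset_iInter₂ fun q hq => hG.2 p hp q hq.1 (h5.trans hq.2))
        by_cases h6 : x ∈ p.1
        exacts [Or.inl (h5 h6), Or.inr (mem_biUnion (show p ∈ {p ∈ S | p.1 ⊆ D} from ⟨hp, h5⟩) ⟨hx, h6⟩)]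
      · exact hG.2 p hp q hq h5
  · choose! φ hφ using fun D (hD : MeasurableSet D) => (show ∃ H, (D, H) ∈ S from
      let ⟨_, h1, H, h2⟩ := hT ⟨D, hD⟩; ⟨H, h1 h2⟩)
    refine ⟨φ, fun D hD => ?_, fun D D' h1 h2 => hG.2 _ (hφ D h1) _ (hφ D' h2)⟩
    obtain ⟨h1, h2, h3⟩ := hG.1 _ (hφ D hD)
    exact ⟨h1, h2, (measure_eq_measure_of_null_diff h2 h3).symm⟩

end Pool.Agent.Results.MP_eb0437_lc.CH
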